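import Pool.Agent.Helper65.KH.Goals

/-!
# Project KH (MP_20ee5e_ag), packet DG: facts about cells (helper94)
-/

set_option autoImplicit false

open MvPolynomial MeasureTheory

namespace Pool.Agent.Helper94.KH.DG

open Pool.Agent.Helper65.KH

variable {ι : Type} [Fintype ι] [DecidableEq ι]

theorem dt_add (w x y : ι → ℝ) : dt w (fun i => x i + y i) = dt w x + dt w y := by
  unfold dt
  rw [← Finset.sum_add_distrib]
  exact Finset.sum_congr rfl fun i _ => by ring

/-- scalar product with a combination -/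
theorem dt_sum (w x : ι → ℝ) (σ : Finset (ι → ℕ)) (l : (ι → ℕ) → ℝ)
    (h : ∀ i, x i = ∑ u ∈ σ, l u * (u i : ℝ)) : dt w x = ∑ u ∈ σ, l u * dt w (cv u) := by
  unfold dt cv
  calc ∑ i, w i * x i = ∑ i, ∑ u ∈ σ, l u * (w i * (u i : ℝ)) := by
        refine Finset.sum_congr rfl fun i _ => ?_
        rw [h i, Finset.mul_sum]
        exact Finset.sum_congr rfl fun u _ => by ring
    _ = ∑ u ∈ σ, ∑ i, l u * (w i * (u i : ℝ)) := Finset.sum_comm
    _ = _ := by
        refine Finset.sum_congr rfl fun u _ => ?_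
        rw [← Finset.mul_sum]

/-- the normal of a cell is in the dual polyhedron -/
theorem mem_LL {V : Finset (ι → ℕ)} {θ : ι → ℝ} {p : ι → ℕ} {σ : Finset (ι → ℕ)}
    {l : (ι → ℕ) → ℝ} {w : ι → ℝ} (h : Cell V θ p σ l w) : w ∈ LL V := by
  intro v hv
  by_cases h1 : v ∈ σ
  · exact (h.one v h1).symm.le
  · exact (h.gt v hv h1).le

theorem dt_cell {V : Finset (ι → ℕ)} {θ : ι → ℝ} {p : ι → ℕ} {σ : Finset (ι → ℕ)}
    {l : (ι → ℕ) → ℝ} {w : ι → ℝ} (h : Cell V θ p σ l w) (w' : ι → ℝ) :
    dt w' (fun i => (p i : ℝ) + θ i) = ∑ u ∈ σ, l u * dt w' (cv u) :=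
  dt_sum w' _ σ l h.eq

theorem le_dt {V : Finset (ι → ℕ)} {θ : ι → ℝ} {p : ι → ℕ} {σ : Finset (ι → ℕ)}
    {l : (ι → ℕ) → ℝ} {w : ι → ℝ} (h : Cell V θ p σ l w) (w' : ι → ℝ) (hw' : w' ∈ LL V) :
    ∑ u ∈ σ, l u ≤ dt w' (fun i => (p i : ℝ) + θ i) := by
  rw [dt_cell h w']
  refine Finset.sum_le_sum fun u hu => ?_
  have h1 := hw' u (h.sub hu)
  have h2 := h.pos u hu
  nlinarith

theorem dt_self {V : Finset (ι → ℕ)} {θ : ι → ℝ} {p : ι → ℕ} {σ : Finset (ι → ℕ)}
    {l : (ι → ℕ) → ℝ} {w : ι → ℝ} (h : Cell V θ p σ l w) :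
    dt w (fun i => (p i : ℝ) + θ i) = ∑ u ∈ σ, l u := by
  rw [dt_cell h w]
  exact Finset.sum_congr rfl fun u hu => by rw [h.one u hu, mul_one]

/-- (1) -/
theorem dg_eq {V : Finset (ι → ℕ)} {θ : ι → ℝ} {p : ι → ℕ} {σ : Finset (ι → ℕ)}
    {l : (ι → ℕ) → ℝ} {w : ι → ℝ} (h : Cell V θ p σ l w) : dg V θ p = ∑ u ∈ σ, l u := by
  unfold dg rr
  have h1 : IsLeast ((fun w => dt w (fun i => (p i : ℝ) + θ i)) '' LL V) (∑ u ∈ σ, l u) := by
    refine ⟨⟨w, mem_LL h, dt_self h⟩, ?_⟩
    rintro _ ⟨w', hw', rfl⟩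
    exact le_dt h w' hw'
  exact h1.csInf_eq

/-- a point of the dual polyhedron with the minimal value is `1` on the cell -/
theorem one_of_eq {V : Finset (ι → ℕ)} {θ : ι → ℝ} {p : ι → ℕ} {σ : Finset (ι → ℕ)}
    {l : (ι → ℕ) → ℝ} {w : ι → ℝ} (h : Cell V θ p σ l w) (w' : ι → ℝ) (hw' : w' ∈ LL V)
    (he : dt w' (fun i => (p i : ℝ) + θ i) ≤ ∑ u ∈ σ, l u) : ∀ u ∈ σ, dt w' (cv u) = 1 := by
  have h0 : ∑ u ∈ σ, l u * (dt w' (cv u) - 1) = 0 := by
    have h1 := dt_cell h w'
    have h2 := le_dt h w' hw'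
    have h3 : ∑ u ∈ σ, l u * (dt w' (cv u) - 1) =
        ∑ u ∈ σ, l u * dt w' (cv u) - ∑ u ∈ σ, l u := by
      rw [← Finset.sum_sub_distrib]
      exact Finset.sum_congr rfl fun u _ => by ring
    rw [h3, ← h1]
    linarith
  have h4 : ∀ u ∈ σ, 0 ≤ l u * (dt w' (cv u) - 1) := by
    intro u hu
    have h5 := hw' u (h.sub hu)
    have h6 := h.pos u hu
    exact mul_nonneg h6.le (by linarith)
  intro u hu
  have h7 := (Finset.sum_eq_zero_iff_of_nonneg h4).1 h0 u hu
  have h6 := h.pos u hu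
  rcases mul_eq_zero.1 h7 with h8 | h8
  · exact absurd h8 h6.ne'
  · linarith

/-- active elements are in the cell -/
theorem mem_of_one {V : Finset (ι → ℕ)} {θ : ι → ℝ} {p : ι → ℕ} {σ : Finset (ι → ℕ)}
    {l : (ι → ℕ) → ℝ} {w : ι → ℝ} (h : Cell V θ p σ l w) {v : ι → ℕ} (hv : v ∈ V)
    (h1 : dt w (cv v) = 1) : v ∈ σ := by
  by_contra h2
  have := h.gt v hv h2
  linarith

theorem sum_upd (σ : Finset (ι → ℕ)) (l : (ι → ℕ) → ℝ) (u : ι → ℕ) (hu : u ∈ σ) (c : ℝ)
    (f : (ι → ℕ) → ℝ) :
    ∑ v ∈ σ, Function.update l u (l u + c) v * f v = ∑ v ∈ σ, l v * f v + c * f u := by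
  have h1 : ∀ v ∈ σ, Function.update l u (l u + c) v * f v =
      l v * f v + (if v = u then c * f u else 0) := by
    intro v _
    by_cases h : v = u
    · subst h
      rw [Function.update_self, if_pos rfl]
      ring
    · rw [Function.update_of_ne h, if_neg h, add_zero]
  rw [Finset.sum_congr rfl h1, Finset.sum_add_distrib, Finset.sum_ite_eq' σ u, if_pos hu]

theorem t (hCE : S_CE) : S_DG := by
  intro ι _ _ V θ hC hG hθ p σ l w h
  refine ⟨dg_eq h, ?_, ?_, ?_, ?_⟩
  · intro σ' l' w' h'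
    have h1 : ∀ u ∈ σ, dt w' (cv u) = 1 := by
      apply one_of_eq h w' (mem_LL h')
      rw [dt_self h', ← dg_eq h', dg_eq h]
    have h2 : σ ⊆ σ' := fun u hu => mem_of_one h' (h.sub hu) (h1 u hu)
    have h3 : σ = σ' := Finset.eq_of_subset_of_card_le h2 (by rw [h.card, h'.card])
    refine ⟨h3, ?_⟩
    subst h3
    have h4 := hG w σ h.sub h.one
    rw [Fintype.linearIndependent_iff] at h4
    have h5 := h4 (fun u => l u - l' u) (by
      funext i
      have e1 := h.eq i
      have e2 := h'.eq i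
      rw [Finset.sum_apply]
      have e3 : ∑ u : σ, ((l u - l' u) • cv (u : ι → ℕ)) i =
          ∑ u ∈ σ, (l u - l' u) * (u i : ℝ) := by
        rw [← Finset.sum_coe_sort σ (fun u => (l u - l' u) * (u i : ℝ))]
        rfl
      rw [e3]
      have e4 : ∑ u ∈ σ, (l u - l' u) * (u i : ℝ) =
          ∑ u ∈ σ, l u * (u i : ℝ) - ∑ u ∈ σ, l' u * (u i : ℝ) := by
        rw [← Finset.sum_sub_distrib]
        exact Finset.sum_congr rfl fun u _ => by ring
      rw [e4, ← e1, ← e2, sub_self]
      rfl)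
    intro u hu
    have := h5 ⟨u, hu⟩
    simp only at this
    linarith
  · intro u hu
    refine ⟨h.sub, h.card, ?_, ?_, h.one, h.gt⟩
    · intro v hv
      by_cases h1 : v = u
      · subst h1
        rw [Function.update_self]
        have := h.pos v hv
        linarith
      · rw [Function.update_of_ne h1]
        exact h.pos v hv
    · intro i
      rw [sum_upd σ l u hu 1 (fun v => (v i : ℝ)), ← h.eq i, Pi.add_apply]
      push_cast
      ring
  · intro u hu hlu
    have hsub : Function.update l u (l u - 1) = Function.update l u (l u + (-1)) := by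
      rw [sub_eq_add_neg]
    have hnn : ∀ v ∈ σ, 0 ≤ Function.update l u (l u - 1) v := by
      intro v hv
      by_cases h1 : v = u
      · subst h1
        rw [Function.update_self]
        linarith
      · rw [Function.update_of_ne h1]
        exact (h.pos v hv).le
    have hs : ∀ i, (p i : ℝ) + θ i - u i =
        ∑ v ∈ σ, Function.update l u (l u - 1) v * (v i : ℝ) := by
      intro i
      rw [hsub, sum_upd σ l u hu (-1) (fun v => (v i : ℝ)), ← h.eq i]
      ring
    have hle : ∀ i, u i ≤ p i := by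
      intro i
      have h1 : 0 ≤ (p i : ℝ) + θ i - u i := by
        rw [hs i]
        exact Finset.sum_nonneg fun v hv => mul_nonneg (hnn v hv) (Nat.cast_nonneg _)
      have h2 := (hθ.1 i).2
      have h3 : (u i : ℝ) < (p i : ℝ) + 1 := by linarith
      have h4 : u i < p i + 1 := by exact_mod_cast h3
      omega
    refine ⟨hle, h.sub, h.card, ?_, ?_, h.one, h.gt⟩
    · intro v hv
      by_cases h1 : v = u
      · subst h1
        rw [Function.update_self]
        rcases lt_or_eq_of_le hlu with h2 | h2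
        · linarith
        · exfalso
          have hcard : (σ.erase v).card < Fintype.card ι := by
            rw [← h.card]
            exact Finset.card_erase_lt_of_mem hv
          refine hθ.2 (σ.erase v) ((Finset.erase_subset _ _).trans h.sub) hcard
            (fun i => (p i : ℤ) - (v i : ℤ)) l fun i => ?_
          have h3 := h.eq i
          rw [← Finset.add_sum_erase σ _ hv, ← h2, one_mul] at h3
          push_cast
          linarith
      · rw [Function.update_of_ne h1]
        exact h.pos v hv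
    · intro i
      rw [← hs i, Pi.sub_apply, Nat.cast_sub (hle i)]
      ring
  · intro v hv hvσ
    obtain ⟨σ', l', w', h'⟩ := hCE ι V θ hC hG hθ (p + v)
    have hw' := mem_LL h'
    have e1 : dg V θ (p + v) = dt w' (fun i => (p i : ℝ) + θ i) + dt w' (cv v) := by
      rw [dg_eq h', ← dt_self h', ← dt_add]
      congr 1
      funext i
      rw [Pi.add_apply]
      unfold cv
      push_cast
      ring
    have e2 := le_dt h w' hw'
    have e3 := hw' v hv
    rw [← dg_eq h] at e2
    rcases lt_or_eq_of_le (by linarith : dg V θ p + 1 ≤ dg V θ (p + v)) with h1 | h1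
    · exact h1
    · exfalso
      have h2 : dt w' (fun i => (p i : ℝ) + θ i) ≤ ∑ u ∈ σ, l u := by
        rw [← dg_eq h]
        linarith
      have h3 : dt w' (cv v) = 1 := by linarith
      have h4 := one_of_eq h w' hw' h2
      have h5 : insert v σ ⊆ σ' := by
        intro u hu
        rcases Finset.mem_insert.1 hu with h6 | h6
        · subst h6
          exact mem_of_one h' hv h3
        · exact mem_of_one h' (h.sub h6) (h4 u h6)
      have h6 := Finset.card_le_card h5
      rw [Finset.card_insert_of_notMem hvσ, h.card, h'.card] at h6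
      omega

end Pool.Agent.Helper94.KH.DG
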